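import Mathlib

set_option autoImplicit false

open Set Cardinal

namespace Pool.Agent.Results.MP_dc3585_lc.BothCliques

theorem thin {S W : Type} [LinearOrder W] [WellFoundedLT W] (m : S → W) {B : Set S}
    (hB : ¬ B.Countable) (hm : ∀ w, {x ∈ B | m x = w}.Countable) :
    ∃ B' ⊆ B, ¬ B'.Countable ∧ ∀ x ∈ B', {y ∈ B' | m y ≤ m x}.Countable := by
  refine ⟨{x ∈ B | {y ∈ B | m y ≤ m x}.Countable}, sep_subset _ _, fun hc => ?_,
    fun x hx => hx.2.mono (by intro y hy; exact ⟨hy.1.1, hy.2⟩)⟩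
  have hne : (m '' {x ∈ B | ¬ {y ∈ B | m y ≤ m x}.Countable}).Nonempty := by
    by_contra h
    rw [not_nonempty_iff_eq_empty, image_eq_empty] at h
    refine hB (hc.mono ?_)
    intro x hx
    refine ⟨hx, by_contra fun h' => ?_⟩
    have : x ∈ {x ∈ B | ¬ {y ∈ B | m y ≤ m x}.Countable} := ⟨hx, h'⟩
    rw [h] at this; exact this
  obtain ⟨w, ⟨x, hx, rfl⟩, hmin⟩ := wellFounded_lt.has_min _ hne
  refine hx.2 ((hc.union (hm (m x))).mono fun y hy => ?_)
  rcases hy.2.lt_or_eq with h | h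
  · left
    exact ⟨hy.1, by_contra fun h' => hmin _ ⟨y, ⟨hy.1, h'⟩, rfl⟩ h⟩
  · right; exact ⟨hy.1, h⟩

theorem real_split {S : Type} (ψ : S → ℝ) {B : Set S} (hB : ¬ B.Countable)
    (hψ : ∀ w, {x ∈ B | ψ x = w}.Countable) :
    ∃ t : ℝ, ¬ {x ∈ B | ψ x < t}.Countable ∧ ¬ {x ∈ B | t < ψ x}.Countable := by
  let U : Set S := ⋃ q ∈ {q : ℚ | {x ∈ B | ψ x < q}.Countable}, {x ∈ B | ψ x < q}
  let V : Set S := ⋃ q ∈ {q : ℚ | {x ∈ B | (q : ℝ) < ψ x}.Countable}, {x ∈ B | (q : ℝ) < ψ x}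
  have hU : U.Countable := (to_countable _).biUnion fun q hq => hq
  have hV : V.Countable := (to_countable _).biUnion fun q hq => hq
  have key : ∀ x ∈ B, ∀ y ∈ B, x ∉ U → y ∉ V → ψ x < ψ y → ∃ t : ℝ,
      ¬ {x ∈ B | ψ x < t}.Countable ∧ ¬ {x ∈ B | t < ψ x}.Countable := by
    intro x hx y hy hxU hyV hxy
    obtain ⟨q, h1, h2⟩ := exists_rat_btwn hxy
    exact ⟨q, fun h => hxU (mem_biUnion h ⟨hx, h1⟩), fun h => hyV (mem_biUnion h ⟨hy, h2⟩)⟩
  have h1 : ∃ x ∈ B, x ∉ U ∪ V := by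
    by_contra h
    exact hB ((hU.union hV).mono fun x hx => by_contra fun h' => h ⟨x, hx, h'⟩)
  obtain ⟨x, hx, hxn⟩ := h1
  have h2 : ∃ y ∈ B, y ∉ (U ∪ V) ∪ {y ∈ B | ψ y = ψ x} := by
    by_contra h
    exact hB (((hU.union hV).union (hψ (ψ x))).mono fun y hy => by_contra fun h' => h ⟨y, hy, h'⟩)
  obtain ⟨y, hy, hyn⟩ := h2
  simp only [mem_union, not_or] at hxn hyn
  have hne : ψ y ≠ ψ x := fun h => hyn.2 ⟨hy, h⟩
  rcases lt_or_gt_of_ne hne with h | h
  · exact key y hy x hx hyn.1.1 hxn.2 h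
  · exact key x hx y hy hxn.1 hyn.1.2 h

theorem build {S : Type} [LinearOrder S] (A : Set S) (P : S → S → Prop) (T : S → S → S → Prop)
    (h : ∀ B ⊆ A, ¬ B.Countable → ∃ B0 ⊆ B, ¬ B0.Countable ∧ ∀ F : Finset S, ↑F ⊆ B0 →
      ∃ z ∈ B, ∀ x ∈ F, x < z ∧ P x z ∧ ∀ y ∈ F, x < y → T x y z) (n : ℕ) :
    ∀ B ⊆ A, ¬ B.Countable → ∃ F : Finset S, ↑F ⊆ B ∧ F.card = n ∧
      ∀ x ∈ F, ∀ z ∈ F, x < z → P x z ∧ ∀ y ∈ F, x < y → y < z → T x y z := by
  induction n with
  | zero => intro B _ _; exact ⟨∅, by simp, rfl, by simp⟩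
  | succ n ih =>
    intro B hBA hB
    obtain ⟨B0, hB0, hc, hz⟩ := h B hBA hB
    obtain ⟨F, hF, hcard, hP⟩ := ih B0 (hB0.trans hBA) hc
    obtain ⟨z, hzB, hz⟩ := hz F hF
    have hzF : z ∉ F := fun h => lt_irrefl _ (hz z h).1
    refine ⟨insert z F, ?_, by rw [Finset.card_insert_of_notMem hzF, hcard], ?_⟩
    · rw [Finset.coe_insert]; exact insert_subset hzB (hF.trans hB0)
    · intro x hx w hw hxw
      have hle : ∀ v ∈ insert z F, v ≤ z := by
        intro v hv
        rcases Finset.mem_insert.1 hv with rfl | hv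
        · exact le_rfl
        · exact (hz v hv).1.le
      have hin : ∀ v ∈ insert z F, v < w → v ∈ F := by
        intro v hv hvw
        rcases Finset.mem_insert.1 hv with rfl | hv
        · exact absurd (hle w hw) (not_le.2 hvw)
        · exact hv
      have hxF := hin x hx hxw
      rcases Finset.mem_insert.1 hw with rfl | hwF
      · exact ⟨(hz x hxF).2.1, fun y hy hxy hyw => (hz x hxF).2.2 y (hin y hy hyw) hxy⟩
      · exact ⟨(hP x hxF w hwF hxw).1, fun y hy hxy hyw =>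
          (hP x hxF w hwF hxw).2 y (hin y hy hyw) hxy hyw⟩

theorem above {S W : Type} [LinearOrder W] (m : S → W) {A B : Set S} (hB : ¬ B.Countable)
    (hA : ∀ x ∈ A, {y ∈ A | m y ≤ m x}.Countable) (F : Finset S) (hF : ↑F ⊆ A) (hBA : B ⊆ A) :
    ¬ {z ∈ B | ∀ x ∈ F, m x < m z}.Countable := by
  intro hc
  have h1 : (⋃ x ∈ (F : Set S), {y ∈ A | m y ≤ m x}).Countable :=
    F.countable_toSet.biUnion fun x hx => hA x (hF hx)
  refine hB ((hc.union h1).mono fun z hz => ?_)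
  by_cases h : ∀ x ∈ F, m x < m z
  · exact Or.inl ⟨hz, h⟩
  · right
    push Not at h
    obtain ⟨x, hx, hle⟩ := h
    exact mem_biUnion (Finset.mem_coe.2 hx) ⟨hBA hz, hle⟩

theorem ne_of_unc {S : Type} {B : Set S} (hB : ¬ B.Countable) : B.Nonempty := by
  by_contra h
  rw [not_nonempty_iff_eq_empty] at h
  exact hB (h ▸ countable_empty)

section

variable {S W : Type} [LinearOrder S] [WellFoundedLT S] [LinearOrder W] [WellFoundedLT W]
  [Nonempty W] (e : S → W → Bool) (r : W → ℝ)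

open Classical in
/-- First difference. -/
noncomputable def D (x y : S) : W :=
  if h : {w | e x w ≠ e y w}.Nonempty then wellFounded_lt.min _ h else Classical.arbitrary W

theorem D_eq {x y : S} {w : W} (h1 : e x w ≠ e y w) (h2 : ∀ v < w, e x v = e y v) :
    D e x y = w := by
  have hne : {w | e x w ≠ e y w}.Nonempty := ⟨w, h1⟩
  unfold D
  rw [dif_pos hne]
  refine le_antisymm (wellFounded_lt.min_le (s := {w | e x w ≠ e y w}) h1) ?_
  by_contra hlt
  exact wellFounded_lt.min_mem _ hne (h2 _ (not_le.1 hlt))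

theorem D_spec (he : Function.Injective e) {x y : S} (hxy : x ≠ y) :
    e x (D e x y) ≠ e y (D e x y) ∧ ∀ v < D e x y, e x v = e y v := by
  have hne : {w | e x w ≠ e y w}.Nonempty := by
    by_contra h
    exact hxy (he (funext fun w => by_contra fun h' => h ⟨w, h'⟩))
  unfold D
  rw [dif_pos hne]
  exact ⟨wellFounded_lt.min_mem _ hne, fun v hv => by_contra fun h =>
    wellFounded_lt.not_lt_min {w | e x w ≠ e y w} h hv⟩

open Classical in
/-- The colour of an increasing triple. -/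
noncomputable def col (x y z : S) : Bool :=
  if D e x y < D e y z then decide (r (D e x y) < r (D e y z)) else e z (D e y z)

/-- `B` contains two uncountable sets that branch at one level. -/
def Splits (B : Set S) : Prop := ∃ (w : W) (B0 B1 : Set S), B0 ⊆ B ∧ B1 ⊆ B ∧
  ¬ B0.Countable ∧ ¬ B1.Countable ∧ (∀ x ∈ B0, e x w = false) ∧ (∀ x ∈ B1, e x w = true) ∧
  ∀ x ∈ B0 ∪ B1, ∀ y ∈ B0 ∪ B1, ∀ v < w, e x v = e y v

theorem case_split (he : Function.Injective e) {A : Set S} (hA : ¬ A.Countable)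
    (hA' : ∀ x ∈ A, {y ∈ A | y ≤ x}.Countable)
    (hs : ∀ B ⊆ A, ¬ B.Countable → Splits e B) (b : Bool) (n : ℕ) :
    ∃ F : Finset S, ↑F ⊆ A ∧ F.card = n ∧
      ∀ x ∈ F, ∀ y ∈ F, ∀ z ∈ F, x < y → y < z → col e r x y z = b := by
  obtain ⟨F, hF, hn, hP⟩ := build A (fun _ _ => True) (fun x y z => col e r x y z = b) (by
    intro B hBA hB
    obtain ⟨w, B0, B1, h0, h1, c0, c1, f0, f1, hag⟩ := hs B hBA hB
    have main : ∀ C0 C1 : Set S, C0 ⊆ B → C1 ⊆ B → ¬ C1.Countable →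
        (∀ x ∈ C0, e x w = !b) → (∀ x ∈ C1, e x w = b) →
        (∀ x ∈ C0 ∪ C1, ∀ y ∈ C0 ∪ C1, ∀ v < w, e x v = e y v) → ∀ F : Finset S, ↑F ⊆ C0 →
        ∃ z ∈ B, ∀ x ∈ F, x < z ∧ True ∧ ∀ y ∈ F, x < y → col e r x y z = b := by
      intro C0 C1 h0 h1 c1 f0 f1 hag F hF
      obtain ⟨z, hz, hz2⟩ := ne_of_unc (above id c1 hA' F (hF.trans (h0.trans hBA))
        (h1.trans hBA))
      refine ⟨z, h1 hz, fun x hx => ⟨hz2 x hx, trivial, fun y hy hxy => ?_⟩⟩
      have hyz : D e y z = w := D_eq e (by rw [f0 y (hF hy), f1 z hz]; simp)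
        (hag y (Or.inl (hF hy)) z (Or.inr hz))
      have hxy' : ¬ D e x y < w := fun hlt => (D_spec e he hxy.ne).1
        (hag x (Or.inl (hF hx)) y (Or.inl (hF hy)) _ hlt)
      unfold col
      rw [hyz, if_neg hxy', f1 z hz]
    cases b with
    | true => exact ⟨B0, h0, c0, main B0 B1 h0 h1 c1 f0 f1 hag⟩
    | false => exact ⟨B1, h1, c1, main B1 B0 h1 h0 c0 f1 f0 (by rwa [union_comm])⟩) n A
      Subset.rfl hA
  exact ⟨F, hF, hn, fun x hx y hy z hz hxy hyz => (hP x hx z hz (hxy.trans hyz)).2 y hy hxy hyz⟩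

theorem case_chain (he : Function.Injective e) (hr : Function.Injective r) {B : Set S}
    (hB : ¬ B.Countable) (hB' : ∀ x ∈ B, {y ∈ B | y ≤ x}.Countable)
    (hs : ¬ Splits e B) (b : Bool) (n : ℕ) :
    ∃ F : Finset S, ↑F ⊆ B ∧ F.card = n ∧
      ∀ x ∈ F, ∀ y ∈ F, ∀ z ∈ F, x < y → y < z → col e r x y z = b := by
  classical
  let C : W → S → Set S := fun w x => {y ∈ B | ∀ v ≤ w, e y v = e x v}
  have hC : ∀ x y : S, x ≠ y → (C (D e x y) x).Countable ∨ (C (D e x y) y).Countable := by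
    intro x y hxy
    by_contra hh
    rw [not_or] at hh
    obtain ⟨h1, h2⟩ := D_spec e he hxy
    have hag : ∀ u ∈ C (D e x y) x ∪ C (D e x y) y, ∀ v < D e x y, e u v = e x v := by
      rintro u (hu | hu) v hv
      · exact hu.2 v hv.le
      · rw [hu.2 v hv.le, h2 v hv]
    cases hx : e x (D e x y) with
    | false =>
      have hy : e y (D e x y) = true := by simpa [hx] using h1
      exact hs ⟨D e x y, _, _, sep_subset _ _, sep_subset _ _, hh.1, hh.2,
        fun u hu => (hu.2 _ le_rfl).trans hx, fun u hu => (hu.2 _ le_rfl).trans hy,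
        fun u hu u' hu' v hv => (hag u hu v hv).trans (hag u' hu' v hv).symm⟩
    | true =>
      have hy : e y (D e x y) = false := by simpa [hx] using h1
      rw [union_comm] at hag
      exact hs ⟨D e x y, _, _, sep_subset _ _, sep_subset _ _, hh.2, hh.1,
        fun u hu => (hu.2 _ le_rfl).trans hy, fun u hu => (hu.2 _ le_rfl).trans hx,
        fun u hu u' hu' v hv => (hag u hu v hv).trans (hag u' hu' v hv).symm⟩
  let G : Set S := {x ∈ B | ∃ w, (C w x).Countable}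
  have hG : ¬ G.Countable := by
    intro hc
    have h1 : (B \ G).Subsingleton := by
      intro x hx y hy
      by_contra hxy
      rcases hC x y hxy with h | h
      · exact hx.2 ⟨hx.1, _, h⟩
      · exact hy.2 ⟨hy.1, _, h⟩
    exact hB ((hc.union h1.countable).mono fun x hx => by
      by_cases h : x ∈ G
      · exact Or.inl h
      · exact Or.inr ⟨hx, h⟩)
  have hm : ∀ x : S, ∃ w : W, x ∈ G → (C w x).Countable ∧ ∀ v < w, ¬ (C v x).Countable := by
    intro x
    by_cases hx : x ∈ G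
    · obtain ⟨w, hw, hmin⟩ := wellFounded_lt.has_min {w | (C w x).Countable} hx.2
      exact ⟨w, fun _ => ⟨hw, fun v hv h => hmin v h hv⟩⟩
    · exact ⟨Classical.arbitrary W, fun h => absurd h hx⟩
  choose m hm using hm
  have hge : ∀ x ∈ G, ∀ y ∈ G, x ≠ y → m x ≤ m y → m x ≤ D e x y := by
    intro x hx y hy hxy hle
    by_contra hlt
    rw [not_le] at hlt
    rcases hC x y hxy with h | h
    · exact (hm x hx).2 _ hlt h
    · exact (hm y hy).2 _ (hlt.trans_le hle) h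
  have hD : ∀ x ∈ G, ∀ y ∈ G, m x < m y → D e x y = m x := by
    intro x hx y hy hlt
    have hxy : x ≠ y := fun h => by rw [h] at hlt; exact lt_irrefl _ hlt
    refine le_antisymm ?_ (hge x hx y hy hxy hlt.le)
    by_contra h
    rw [not_le] at h
    refine (hm y hy).2 _ hlt ((hm x hx).1.mono ?_)
    intro u hu
    refine ⟨hu.1, fun v hv => ?_⟩
    rw [hu.2 v hv, (D_spec e he hxy).2 v (hv.trans_lt h)]
  have hfib : ∀ w, {x ∈ G | m x = w}.Countable := by
    intro w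
    have h1 : ∀ c : Bool, {x ∈ G | m x = w ∧ e x w = c}.Countable := by
      intro c
      rcases {x ∈ G | m x = w ∧ e x w = c}.eq_empty_or_nonempty with h | ⟨x, hx⟩
      · rw [h]; exact countable_empty
      · refine (hm x hx.1).1.mono ?_
        intro y hy
        refine ⟨hy.1.1, fun v hv => ?_⟩
        by_cases hxy : x = y
        · rw [hxy]
        rw [hx.2.1] at hv
        rcases hv.lt_or_eq with hv | rfl
        · have := hge x hx.1 y hy.1 hxy (by rw [hx.2.1, hy.2.1])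
          rw [hx.2.1] at this
          exact ((D_spec e he hxy).2 v (hv.trans_le this)).symm
        · rw [hx.2.2, hy.2.2]
    refine ((h1 true).union (h1 false)).mono fun x hx => ?_
    cases h : e x w with
    | true => exact Or.inl ⟨hx.1, hx.2, h⟩
    | false => exact Or.inr ⟨hx.1, hx.2, h⟩
  obtain ⟨A, hAG, hA, hAm⟩ := thin m hG hfib
  have hAB : A ⊆ B := hAG.trans (sep_subset _ _)
  have hA' : ∀ x ∈ A, {y ∈ A | id y ≤ id x}.Countable := fun x hx =>
    (hB' x (hAB hx)).mono (by intro y hy; exact ⟨hAB hy.1, hy.2⟩)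
  obtain ⟨F, hF, hn, hP⟩ := build A (fun x z => m x < m z ∧ decide (r (m x) < r (m z)) = b)
    (fun _ _ _ => True) (by
    intro E hEA hE
    obtain ⟨t, h1, h2⟩ := real_split (fun x => r (m x)) hE (fun w => by
      rcases {x ∈ E | r (m x) = w}.eq_empty_or_nonempty with h | ⟨x, hx⟩
      · rw [h]; exact countable_empty
      · exact (hfib (m x)).mono (by
          intro y hy; exact ⟨hAG (hEA hy.1), hr (hy.2.trans hx.2.symm)⟩))
    have main : ∀ C0 C1 : Set S, C0 ⊆ E → C1 ⊆ E → ¬ C1.Countable →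
        (∀ x ∈ C0, ∀ z ∈ C1, decide (r (m x) < r (m z)) = b) → ∀ F : Finset S, ↑F ⊆ C0 →
        ∃ z ∈ E, ∀ x ∈ F, x < z ∧ (m x < m z ∧ decide (r (m x) < r (m z)) = b) ∧
          ∀ y ∈ F, x < y → True := by
      intro C0 C1 h0 h1 c1 hb F hF
      have hFA : ↑F ⊆ A := hF.trans (h0.trans hEA)
      have s1 := above id c1 hA' F hFA (h1.trans hEA)
      obtain ⟨z, hz, hz2⟩ := ne_of_unc (above m s1 hAm F hFA
        ((sep_subset _ _).trans (h1.trans hEA)))
      exact ⟨z, h1 hz.1, fun x hx => ⟨hz.2 x hx, ⟨hz2 x hx, hb x (hF hx) z hz.1⟩,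
        fun _ _ _ => trivial⟩⟩
    cases b with
    | true =>
      exact ⟨_, sep_subset _ _, h1, main _ _ (sep_subset _ _) (sep_subset _ _) h2
        fun x hx z hz => decide_eq_true (hx.2.trans hz.2)⟩
    | false =>
      exact ⟨_, sep_subset _ _, h2, main _ _ (sep_subset _ _) (sep_subset _ _) h1
        fun x hx z hz => decide_eq_false (not_lt.2 (hz.2.trans hx.2).le)⟩) n A Subset.rfl hA
  refine ⟨F, hF.trans hAB, hn, fun x hx y hy z hz hxy hyz => ?_⟩
  have p1 := (hP x hx y hy hxy).1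
  have p2 := (hP y hy z hz hyz).1
  unfold col
  rw [hD x (hAG (hF hx)) y (hAG (hF hy)) p1.1, hD y (hAG (hF hy)) z (hAG (hF hz)) p2.1,
    if_pos p1.1]
  convert p1.2

theorem both (he : Function.Injective e) (hr : Function.Injective r) {A : Set S}
    (hA : ¬ A.Countable) (b : Bool) (n : ℕ) :
    ∃ F : Finset S, ↑F ⊆ A ∧ F.card = n ∧
      ∀ x ∈ F, ∀ y ∈ F, ∀ z ∈ F, x < y → y < z → col e r x y z = b := by
  obtain ⟨A', hA', hc, hi⟩ := thin (id : S → S) hA (fun w =>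
    (countable_singleton w).mono fun x hx => hx.2)
  by_cases hs : ∀ B ⊆ A', ¬ B.Countable → Splits e B
  · obtain ⟨F, hF, h⟩ := case_split e r he hc hi hs b n
    exact ⟨F, hF.trans hA', h⟩
  · push Not at hs
    obtain ⟨B, hB, hBc, hs⟩ := hs
    obtain ⟨F, hF, h⟩ := case_chain e r he hr hBc
      (fun x hx => (hi x (hB hx)).mono (by intro y hy; exact ⟨hB hy.1, hy.2⟩)) hs b n
    exact ⟨F, hF.trans (hB.trans hA'), h⟩

end

theorem result (S : Type) (hS : #S = 2 ^ (2 ^ ℵ₀ : Cardinal.{0})) :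
    ∃ c : Finset S → Fin 2, ∀ A : Set S, #A = ℵ₁ → ∀ (i : Fin 2) (n : ℕ),
      ∃ Y : Finset S, ↑Y ⊆ A ∧ Y.card = n ∧ ∀ t ⊆ Y, t.card = 3 → c t = i := by
  classical
  let W := (2 ^ ℵ₀ : Cardinal.{0}).ord.ToType
  have hW : #W = 2 ^ ℵ₀ := by simp [W]
  obtain ⟨r⟩ : Nonempty (W ↪ ℝ) := by
    rw [← Cardinal.le_def, hW, mk_real, two_power_aleph0]
  obtain ⟨e⟩ : Nonempty (S ↪ (W → Bool)) := by
    rw [← Cardinal.le_def, hS, ← hW]; simp
  have : Nonempty W := by
    rw [← mk_ne_zero_iff, hW]; exact power_ne_zero _ two_ne_zero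
  obtain ⟨_, _⟩ := exists_wellFoundedLT S
  refine ⟨fun t => if ∀ x ∈ t, ∀ y ∈ t, ∀ z ∈ t, x < y → y < z → col e r x y z = true
    then 1 else 0, fun A hA i n => ?_⟩
  have hAc : ¬ A.Countable := by
    rw [← le_aleph0_iff_set_countable, hA, not_le]; exact aleph0_lt_aleph_one
  obtain ⟨F, hF, hn, h⟩ := both e r e.injective r.injective hAc (decide (i = 1)) n
  refine ⟨F, hF, hn, fun t ht h3 => ?_⟩
  beta_reduce
  by_cases hi : i = 1
  · rw [if_pos, hi]
    intro x hx y hy z hz hxy hyz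
    rw [h x (ht hx) y (ht hy) z (ht hz) hxy hyz]; simpa using hi
  · have hi0 : i = 0 := by omega
    rw [if_neg, hi0]
    intro hall
    let f := t.orderEmbOfFin h3
    have hf : ∀ j, f j ∈ t := fun j => Finset.orderEmbOfFin_mem t h3 j
    have h01 : f 0 < f 1 := f.strictMono (by decide)
    have h12 : f 1 < f 2 := f.strictMono (by decide)
    have h1 := hall _ (hf 0) _ (hf 1) _ (hf 2) h01 h12
    rw [h _ (ht (hf 0)) _ (ht (hf 1)) _ (ht (hf 2)) h01 h12] at h1
    exact hi (by simpa using h1)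

end Pool.Agent.Results.MP_dc3585_lc.BothCliques
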